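import Pool.Agent.W200.MR.Stm

set_option autoImplicit false

open Finset Filter Topology

namespace Pool.Agent.W303.MR

open Pool.Agent.W200.MR

lemma norm_pw (t : ℝ) (n : ℕ) : ‖pw t n‖ = 1 := by
  unfold pw
  exact Complex.norm_exp_ofReal_mul_I _

lemma pw_mul (t : ℝ) (u v : ℕ) (hu : 1 ≤ u) (hv : 1 ≤ v) : pw t (u * v) = pw t u * pw t v := by
  unfold pw
  have hu' : (u : ℝ) ≠ 0 := by positivity
  have hv' : (v : ℝ) ≠ 0 := by positivity
  rw [← Complex.exp_add, Nat.cast_mul, Real.log_mul hu' hv']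
  congr 1
  push_cast
  ring

lemma pw_one (t : ℝ) : pw t 1 = 1 := by
  unfold pw
  simp

lemma key (T : ℕ) (t K : ℝ) (hK : 0 ≤ K) (h : ∀ p : ℕ, p.Prime → p < T → ‖pw t p - 1‖ ≤ K) :
    ∀ n : ℕ, 1 ≤ n → Smooth T n → ‖pw t n - 1‖ ≤ Nat.log 2 n * K := by
  intro n
  induction n using Nat.strong_induction_on with
  | _ n ih =>
    intro hn hs
    rcases Nat.lt_or_ge n 2 with h2 | h2
    · have : n = 1 := by omega
      subst this
      rw [pw_one, sub_self, norm_zero]
      positivity
    · have hp : (n.minFac).Prime := Nat.minFac_prime (by omega)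
      have hdvd := Nat.minFac_dvd n
      have hpT := hs _ hp hdvd
      have hmul : n.minFac * (n / n.minFac) = n := Nat.mul_div_cancel' hdvd
      have hq1 : 1 ≤ n / n.minFac := Nat.div_pos (Nat.minFac_le (by omega)) hp.pos
      have hqn : n / n.minFac < n := Nat.div_lt_self (by omega) hp.one_lt
      have hqs : Smooth T (n / n.minFac) := fun p hp' hd =>
        hs p hp' (hd.trans (Nat.div_dvd_of_dvd hdvd))
      have h3 := ih _ hqn hq1 hqs
      have h4 := h _ hp hpT
      have h5 : Nat.log 2 (n / n.minFac) + 1 ≤ Nat.log 2 n := by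
        have h6 : Nat.log 2 (n / n.minFac) ≤ Nat.log 2 (n / 2) :=
          Nat.log_mono_right (Nat.div_le_div_left hp.two_le (by norm_num))
        have h7 : Nat.log 2 n = Nat.log 2 (n / 2) + 1 := Nat.log_of_one_lt_of_le (by norm_num) h2
        omega
      have h8 : pw t n - 1 = pw t n.minFac * (pw t (n / n.minFac) - 1) + (pw t n.minFac - 1) := by
        conv_lhs => rw [← hmul]
        rw [pw_mul t _ _ hp.one_le hq1]
        ring
      calc ‖pw t n - 1‖ ≤ ‖pw t n.minFac * (pw t (n / n.minFac) - 1)‖ + ‖pw t n.minFac - 1‖ := by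
            rw [h8]; exact norm_add_le _ _
        _ ≤ Nat.log 2 (n / n.minFac) * K + K := by
            rw [norm_mul, norm_pw, one_mul]
            exact add_le_add h3 h4
        _ = ((Nat.log 2 (n / n.minFac) + 1 : ℕ) : ℝ) * K := by push_cast; ring
        _ ≤ Nat.log 2 n * K := by
            refine mul_le_mul_of_nonneg_right ?_ hK
            exact_mod_cast h5

theorem t_L2a : S_L2a := by
  intro T m Y t hm hsum n hn hnY hs
  have hK : 0 ≤ 4 * Real.sqrt ((T : ℝ) / m) := by positivity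
  have h1 : ∀ p : ℕ, p.Prime → p < T → ‖pw t p - 1‖ ≤ 4 * Real.sqrt ((T : ℝ) / m) := by
    intro p hp hpT
    have h2 : ‖pw t p - 1‖ ^ 2 ≤ 16 * T / m := by
      refine le_trans ?_ hsum
      refine Finset.single_le_sum (f := fun p : ℕ => ‖pw t p - 1‖ ^ 2) (fun i _ => by positivity) ?_
      rw [Finset.mem_filter, Finset.mem_range]
      exact ⟨hpT, hp⟩
    have h3 : ‖pw t p - 1‖ ^ 2 ≤ (4 * Real.sqrt ((T : ℝ) / m)) ^ 2 := by
      rw [mul_pow, Real.sq_sqrt (by positivity)]
      refine h2.trans (le_of_eq ?_)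
      ring
    exact le_of_sq_le_sq h3 hK
  refine (key T t _ hK h1 n hn hs).trans ?_
  refine mul_le_mul_of_nonneg_right ?_ hK
  exact_mod_cast Nat.log_mono_right hnY

end Pool.Agent.W303.MR
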